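import Pool.Agent.Helper44.Hilb.Defs
import Pool.Agent.Helper44.Hilb.Proof

/-!
A metrizable recurrent-transitive Hilbert system with no nontrivial Hilbert-representable factor.
-/

namespace Pool.Agent.Results.MP_7fb4a2_an.NoRepresentableFactor

open Pool.Agent.Helper44.Hilb

/-- There is a compact metrizable system `(X,T)` that is recurrent-transitive and Hilbert, such that
every Hilbert-representable factor of it is a point; moreover, for every transitive point `x₀`, the
only elements of `A(X,x₀)` lying in `B(ℤ)` come from constant functions, i.e.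
`A(X,x₀) ∩ B(ℤ) = ℂ`. -/
theorem result.{u, v} :
    ∃ (X : Type) (_ : TopologicalSpace X) (_ : CompactSpace X) (_ : T2Space X)
      (_ : TopologicalSpace.MetrizableSpace X) (T : X ≃ₜ X),
      RecurrentTransitive T ∧ IsHilbertSystem T ∧
      (∀ (Y : Type v) [TopologicalSpace Y] [CompactSpace Y] [T2Space Y] (R : Y ≃ₜ Y) (π : X → Y),
        IsFactorMap T R π → HilbertRepresentable.{u, v} R → Subsingleton Y) ∧
      (∀ x₀, IsTransitivePt T x₀ → ∀ F : C(X, ℂ), InB (fun n => F ((T ^ n) x₀)) →
        ∃ c : ℂ, ∀ x, F x = c) :=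
  main.{u, v}

end Pool.Agent.Results.MP_7fb4a2_an.NoRepresentableFactor
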